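import Pool.Agent.N203.FB.On
import Pool.Agent.N203.TA.Main

/-!
# Endomorphisms of one summand
-/

set_option autoImplicit false
set_option linter.unusedSectionVars false
set_option linter.unusedVariables false

namespace Pool.Agent.N203.FB

open NumberField IsDedekindDomain Module Polynomial TensorProduct Pool.Agent.TH118.SG
  Pool.Agent.Y114.MU Pool.Agent.Y114.TF Pool.Agent.Y114.GF Pool.Agent.H204R3.GP
  Pool.Agent.Y114.RM Pool.Agent.R931.IR Pool.Agent.R931.BD Pool.Agent.Y212.RM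
  Pool.Agent.N203.RE Pool.Agent.N203.TA

section loc

variable {k : Type} [Field k] [CharZero k] [Algebra k ℂ] {V : Type} [AddCommGroup V] [Module k V]
  [FiniteDimensional k V]

/-- If the part of the commutant of `L` supported on the image of the idempotent `e` commutes with
`G`, the complement of `L` kills the image of `e`. -/
theorem perp_kills {L G : Submodule k (End k V)}
    (hLie : IsLie L) (hLG : L ≤ G) (hG : IsLie G) (hndG : NonDeg G) (hndL : NonDeg L)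
    {t : Submodule ℂ (End ℂ (ℂ ⊗[k] V))} (htL : t ≤ bcS ℂ L)
    (hdiag : ∀ a ∈ t, ⨆ μ, End.eigenspace a μ = ⊤) (hcomm : ∀ a ∈ t, ∀ b ∈ t, a * b = b * a)
    (hcen : ∀ x ∈ bcS ℂ G, (∀ a ∈ t, a * x = x * a) → x ∈ t)
    {e : End k V} (he : e * e = e) (heG : ∀ X ∈ G, X * e = e * X)
    (hcom : ∀ Y, (∀ X ∈ L, X * Y = Y * X) → e * Y = Y → Y * e = Y → ∀ X ∈ G, X * Y = Y * X) :
    ∀ x ∈ perp (bcS ℂ G) (bcS ℂ L), x * e.baseChange ℂ = 0 := by
  have hLC : IsLie (bcS ℂ L) := (inputs.bc k ℂ V L).2.1 hLie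
  have hGC : IsLie (bcS ℂ G) := (inputs.bc k ℂ V G).2.1 hG
  have hLGC : bcS ℂ L ≤ bcS ℂ G := bcS_mono hLG
  have hNL : NonDeg (bcS ℂ L) := (inputs.bc k ℂ V L).2.2.1 hndL
  have hNG : NonDeg (bcS ℂ G) := (inputs.bc k ℂ V G).2.2.1 hndG
  have TG : Tor (bcS ℂ G) t := ⟨hGC, hNG, htL.trans hLGC, hdiag, hcomm, hcen⟩
  have TL : Tor (bcS ℂ L) t := ⟨hLC, hNL, htL, hdiag, hcomm, fun x hx => hcen x (hLGC hx)⟩
  set E : End ℂ (ℂ ⊗[k] V) := e.baseChange ℂ with hE
  have hEE : E * E = E := by rw [hE, ← bc_mul, he]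
  have hEG : ∀ X ∈ bcS ℂ G, X * E = E * X := bcS_comm heG
  have hEL : ∀ X ∈ bcS ℂ L, X * E = E * X := fun X hX => hEG X (hLGC hX)
  have hEx : ∀ x ∈ LinearMap.range E, E x = x := by
    rintro _ ⟨y, rfl⟩
    rw [← Module.End.mul_apply, hEE]
  have hst : ∀ X ∈ bcS ℂ G, ∀ x ∈ LinearMap.range E, X x ∈ LinearMap.range E := by
    rintro X hX _ ⟨y, rfl⟩
    refine ⟨X y, ?_⟩
    rw [← Module.End.mul_apply, ← hEG X hX, Module.End.mul_apply]
  have key := max_rank_on TG TL hLGC hst ?_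
  · intro x hx
    refine LinearMap.ext fun y => ?_
    rw [Module.End.mul_apply, LinearMap.zero_apply]
    exact key x hx _ ⟨y, rfl⟩
  intro W hWU hW
  obtain ⟨P, hP1, hP2, hP3⟩ := inputs2.weyl ℂ _ (bcS ℂ L) hLC hNL (fun x hx hxL =>
    hdiag x (hcen x (hLGC hx) fun a ha => (hxL a (htL ha)).symm)) W hW
  have hPE : ∀ X ∈ bcS ℂ L, X * (E * P * E) = (E * P * E) * X := by
    intro X hX
    calc X * (E * P * E) = (X * E) * P * E := by noncomm_ring
      _ = E * (X * P) * E := by rw [hEL X hX]; noncomm_ring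
      _ = E * P * (X * E) := by rw [hP1 X hX]; noncomm_ring
      _ = (E * P * E) * X := by rw [hEL X hX]; noncomm_ring
  refine ⟨E * P * E, ?_, ?_, ?_⟩
  · have h3 : ∀ π : ℂ →ₗ[k] k, ∀ X ∈ G, X * pM π (E * P * E) = pM π (E * P * E) * X := by
      intro π
      refine hcom _ (fun X hX => ?_) ?_ ?_
      · rw [← pM_bc_mul, hPE _ (mem_bcS hX), pM_mul_bc]
      · rw [← pM_bc_mul]
        congr 1
        rw [← mul_assoc, ← mul_assoc, ← hE, hEE]
      · rw [← pM_mul_bc]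
        congr 1
        rw [mul_assoc, ← hE, hEE]
    intro X hX
    induction hX using Submodule.span_induction with
    | mem X hX =>
      obtain ⟨Z, hZ, rfl⟩ := hX
      rw [← sub_eq_zero]
      refine eq_zero_of_pM inputs.bc fun π => ?_
      have h4 : (pM π (Z.baseChange ℂ * (E * P * E) - (E * P * E) * Z.baseChange ℂ) : End k V) =
          pM π (Z.baseChange ℂ * (E * P * E)) - pM π ((E * P * E) * Z.baseChange ℂ) := by
        refine LinearMap.ext fun v => ?_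
        rw [LinearMap.sub_apply, pM_apply, pM_apply, pM_apply, LinearMap.sub_apply, map_sub]
      rw [h4, pM_bc_mul π Z (E * P * E), pM_mul_bc π Z (E * P * E), h3 π Z hZ, sub_self]
    | zero => rw [zero_mul, mul_zero]
    | add X Y _ _ hX hY => rw [add_mul, mul_add, hX, hY]
    | smul c X _ hX => rw [smul_mul_assoc, mul_smul_comm, hX]
  · intro x
    rw [Module.End.mul_apply, Module.End.mul_apply, hEx _ (hWU (hP2 _))]
    exact hP2 _
  · intro x hx
    rw [Module.End.mul_apply, Module.End.mul_apply, hEx _ (hWU hx), hP3 x hx, hEx _ (hWU hx)]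

end loc

section blocks

variable {k : Type} [Field k] {ι : Type} [DecidableEq ι] {V : ι → Type}
  [∀ i, AddCommGroup (V i)] [∀ i, Module k (V i)]

/-- the projector to the `i`-th summand -/
def pr (k : Type) [Field k] {ι : Type} [DecidableEq ι] (V : ι → Type)
    [∀ i, AddCommGroup (V i)] [∀ i, Module k (V i)] (i : ι) : End k (∀ i, V i) :=
  LinearMap.single k V i ∘ₗ LinearMap.proj i

theorem pr_apply (i : ι) (x : ∀ i, V i) : pr k V i x = Pi.single i (x i) := rfl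

theorem pr_pr (i : ι) : pr k V i * pr k V i = pr k V i := by
  refine LinearMap.ext fun x => ?_
  rw [Module.End.mul_apply, pr_apply, pr_apply, Pi.single_eq_same]

theorem parts_single {X : End k (∀ i, V i)} (hX : ∀ x i, X x i = X (Pi.single i (x i)) i) (i : ι)
    (v : V i) : X (Pi.single i v) = Pi.single i (X (Pi.single i v) i) := by
  funext j
  by_cases h : j = i
  · subst h
    rw [Pi.single_eq_same]
  · rw [Pi.single_eq_of_ne h, hX, Pi.single_eq_of_ne h, Pi.single_zero, map_zero]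
    rfl

theorem pr_comm {X : End k (∀ i, V i)} (hX : ∀ x i, X x i = X (Pi.single i (x i)) i) (i : ι) :
    X * pr k V i = pr k V i * X := by
  refine LinearMap.ext fun x => ?_
  rw [Module.End.mul_apply, Module.End.mul_apply, pr_apply, pr_apply, parts_single hX, ← hX]

/-- an endomorphism supported on the `i`-th summand -/
theorem supp_apply {Y : End k (∀ i, V i)} {i : ι} (h1 : pr k V i * Y = Y) (h2 : Y * pr k V i = Y)
    (x : ∀ i, V i) : Y x = Pi.single i (blk i Y (x i)) := by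
  conv_lhs => rw [← h1, ← h2]
  rw [Module.End.mul_apply, Module.End.mul_apply, pr_apply, pr_apply, blk_apply]

theorem blk_comm {X Y : End k (∀ i, V i)} (hX : ∀ x i, X x i = X (Pi.single i (x i)) i) {i : ι}
    (h1 : pr k V i * Y = Y) (h2 : Y * pr k V i = Y) (h : blk i X * blk i Y = blk i Y * blk i X) :
    X * Y = Y * X := by
  refine LinearMap.ext fun x => ?_
  rw [Module.End.mul_apply, Module.End.mul_apply, supp_apply h1 h2, supp_apply h1 h2 (X x),
    parts_single hX, hX x i]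
  congr 1
  exact LinearMap.congr_fun h (x i)

end blocks

section main

variable {ι : Type} [Fintype ι] [DecidableEq ι] {n : ι → ℕ} {ℓ : ℕ} [hℓ : Fact ℓ.Prime]
  {Γ : Type} [Group Γ] [TopologicalSpace Γ] [IsTopologicalGroup Γ] [CompactSpace Γ]

/-- the projector to the `i`-th summand -/
noncomputable abbrev prL (n : ι → ℕ) (ℓ : ℕ) [Fact ℓ.Prime] (i : ι) : End ℚ_[ℓ] (∀ i, Fin (n i) → ℚ_[ℓ]) :=
  pr ℚ_[ℓ] (fun i => Fin (n i) → ℚ_[ℓ]) i

/-- If the Tate endomorphisms of the `i`-th summand commute with `𝔤`, the complement kills the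
`i`-th summand. -/
theorem perp_block (ρ : ∀ i, Representation ℚ_[ℓ] Γ (Fin (n i) → ℚ_[ℓ]))
    (hρ : ∀ i, Continuous fun g => LinearMap.toMatrix' (ρ i g))
    (𝔤 : Submodule ℚ_[ℓ] (End ℚ_[ℓ] (∀ i, Fin (n i) → ℚ_[ℓ]))) (h𝔤 : IsMotivic ρ 𝔤)
    {L : Submodule ℚ_[ℓ] (End ℚ_[ℓ] (∀ i, Fin (n i) → ℚ_[ℓ]))}
    (alg : Algebra ℚ_[ℓ] ℂ) {t : Submodule ℂ (End ℂ (ℂ ⊗[ℚ_[ℓ]] (∀ i, Fin (n i) → ℚ_[ℓ])))}
    (hL : ∀ X, X ∈ L ↔ X ∈ LT (sumRep ρ)) (hLie : IsLie L) (hLG : L ≤ 𝔤)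
    (hND : NonDeg L) (htL : t ≤ bcS ℂ L) (hdiag : ∀ a ∈ t, ⨆ μ, End.eigenspace a μ = ⊤)
    (hcomm : ∀ a ∈ t, ∀ b ∈ t, a * b = b * a)
    (hcen : ∀ x ∈ bcS ℂ 𝔤, (∀ a ∈ t, a * x = x * a) → x ∈ t) (i : ι)
    (hend : EndosCommute (ρ i)
      (imageIn (k := ℚ_[ℓ]) (V := fun i => Fin (n i) → ℚ_[ℓ]) 𝔤 i)) :
    ∀ x ∈ perp (bcS ℂ 𝔤) (bcS ℂ L), x * (prL n ℓ i).baseChange ℂ = 0 := by
  classical
  have h := inputs
  have h2 := inputs2
  obtain ⟨L', hL', -, hAd', -⟩ := h.lie ℚ_[ℓ] (∀ i, Fin (n i) → ℚ_[ℓ]) _ (sumRep ρ)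
  have hLL' : L' = L := by
    ext X
    rw [hL', hL]
  rw [hLL'] at hAd'
  obtain ⟨Δ', hΔ', hcommΔ⟩ := h2.tfr ℓ ι n _ ρ hρ (comm L) (comm_conj (sumRep ρ) hAd')
    (comm_order (sumRep ρ) h h2 hL)
  refine perp_kills hLie hLG h𝔤.bracket h𝔤.nondeg hND htL hdiag hcomm hcen (pr_pr i)
    (fun X hX => pr_comm (h𝔤.parts X hX) i) fun Y hY h3 h4 X hX => ?_
  refine blk_comm (h𝔤.parts X hX) h3 h4 ?_
  refine hend (blk i Y) ⟨Δ', hΔ', fun γ hγ => ?_⟩ _ ⟨X, hX, rfl⟩
  have h5 := hcommΔ γ hγ Y hY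
  refine LinearMap.ext fun x => ?_
  rw [Module.End.mul_apply, Module.End.mul_apply, blk_apply, blk_apply]
  have h6 := congrFun (LinearMap.congr_fun h5 (Pi.single i x)) i
  have h7 : sumRep ρ γ (Pi.single i x) = Pi.single i (ρ i γ x) := by
    funext j
    show ρ j γ ((Pi.single i x : ∀ i, Fin (n i) → ℚ_[ℓ]) j) = _
    by_cases hj : j = i
    · subst hj
      rw [Pi.single_eq_same, Pi.single_eq_same]
    · rw [Pi.single_eq_of_ne hj, Pi.single_eq_of_ne hj, map_zero]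
  have h8 : (sumRep ρ γ * Y) (Pi.single i x) i = ρ i γ (Y (Pi.single i x) i) := rfl
  have h9 : (Y * sumRep ρ γ) (Pi.single i x) i = Y (sumRep ρ γ (Pi.single i x)) i := rfl
  rw [h8, h9, h7] at h6
  exact h6

end main

end Pool.Agent.N203.FB
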