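import Pool.Agent.N203.TA.Defs

/-!
# Families: definitions
-/

set_option autoImplicit false

namespace Pool.Agent.N203.FB

open NumberField IsDedekindDomain Module Polynomial TensorProduct Pool.Agent.Y114.RM
  Pool.Agent.Y114.MU Pool.Agent.Y114.TF Pool.Agent.Y114.GF Pool.Agent.R931.IR Pool.Agent.N203.RE
  Pool.Agent.N203.TA

section family

variable {Γ : Type} [Group Γ] {ι : Type} {n : ι → ℕ}

/-- The elements of `Γ` with `r` multiplicatively independent eigenvalues exist, and they generate a
dense subgroup of `Γ`. -/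
def FullElementsDense [TopologicalSpace Γ] {ℓ₀ : ℕ} [Fact ℓ₀.Prime] (ρ₀ : Reps Γ n ℓ₀) (r : ℕ) :
    Prop :=
  (∃ γ, IndependentEigenvalues ρ₀ γ r) ∧
    Dense (Subgroup.closure {γ | IndependentEigenvalues ρ₀ γ r} : Set Γ)

/-- The Galois group maps onto `Γ / Δ`: the fibre of the étale cover `U' → U` with the group `Γ / Δ`
at the rational point which corresponds to `s` is connected. -/
def ConnectedFibre (Δ : Subgroup Γ) (s : Gal(AlgebraicClosure ℚ/ℚ) →* Γ) : Prop :=
  ∀ γ : Γ, ∃ σ, (s σ)⁻¹ * γ ∈ Δ

end family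

section tensors

variable {k V : Type} [Field k] [AddCommGroup V] [Module k V]

/-- All elements of `𝔥` kill the tensor `φ`. -/
def KilledBy (𝔥 : Submodule k (End k V)) {m : ℕ} (φ : Tensor k V m) : Prop :=
  ∀ X ∈ 𝔥, KillsTensor X φ

/-- `φ` is a tensor on the image of the projector `p`. -/
def TensorOnImage (p : End k V) {m : ℕ} (φ : Tensor k V m) : Prop :=
  ∀ v, φ (fun l => grp p p (v l)) = φ v

/-- The Tate tensors on the image of the projector `p` are the tensors killed by `𝔥`. -/
def TateOnImage {Γ : Type} [Group Γ] (ρ : Representation k Γ V) (𝔥 : Submodule k (End k V))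
    (p : End k V) : Prop :=
  ∀ (m : ℕ) (φ : Tensor k V m), TensorOnImage p φ → (TateTensor ρ φ ↔ KilledBy 𝔥 φ)

end tensors

section typeA

variable {H : Type} [AddCommGroup H] [Module ℚ H]

/-- The part of type A of `𝔤`: the largest subspace of `𝔤` whose complexification is contained in the
part of type A of `𝔤 ⊗ ℂ`. -/
noncomputable def ratPartA (𝔤 : Submodule ℚ (End ℚ H)) : Submodule ℚ (End ℚ H) :=
  sSup {𝔞 | 𝔞 ≤ 𝔤 ∧ bcS ℂ 𝔞 ≤ partA 𝔤}

/-- The elements of `𝔤` with the property `Z` are in the part of type A of `𝔤`. -/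
def InPartA (𝔤 : Submodule ℚ (End ℚ H)) (Z : Set (End ℚ H)) : Prop :=
  ∀ X ∈ 𝔤, X ∈ Z → X ∈ ratPartA 𝔤

end typeA

section sums

variable {k ι : Type} [Field k] {V : ι → Type} [∀ i, AddCommGroup (V i)] [∀ i, Module k (V i)]

/-- The space of the endomorphisms of the summand `V i` which are given by elements of `𝔥`. -/
def actionOn (𝔥 : Submodule k (End k (∀ i, V i))) (i : ι) : Submodule k (End k (V i)) :=
  Submodule.span k {B | ∃ X ∈ 𝔥, ∀ x, X x i = B (x i)}

/-- The centre of `𝔥` consists of multiples of the weight operator: it acts by a multiple of `w i` on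
`V i`, with the same factor for all `i`. -/
def CentreOfWeights (w : ι → ℤ) (𝔥 : Submodule k (End k (∀ i, V i))) : Prop :=
  ∀ z ∈ centreOf 𝔥, ∃ κ : k, ∀ x i, z x i = (κ * (w i : k)) • x i

open Classical in
/-- The projection to the sum of the `V i`, `i ∈ J`. -/
noncomputable def partOf (J : Set ι) : End k (∀ i, V i) :=
  LinearMap.pi fun i => if i ∈ J then LinearMap.proj i else 0

end sums

section parts

variable {ι : Type} {n : ι → ℕ}

/-- The endomorphisms which act as zero on the summands `M i`, `i ∈ J`. -/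
def zeroOn (n : ι → ℕ) (J : Set ι) : Set (End ℚ (Betti n)) := {X | ∀ i ∈ J, ∀ x, X x i = 0}

variable {ℓ : ℕ} [Fact ℓ.Prime] {Γ : Type} [Group Γ] [DecidableEq ι]

/-- The Lie algebra `𝔥` of the endomorphisms which kill all Tate tensors is a reductive subalgebra
of `𝔤 ⊗ ℚ_ℓ` of maximal rank, its centre consists of multiples of the weight operator, and it contains
the part of type A of `𝔤`. -/
structure TateAlgebra (w : ι → ℤ) (ρ : Reps Γ n ℓ) (𝔤 : Submodule ℚ (End ℚ (Betti n))) (r : ℕ)
    (𝔥 : EndSpace n ℓ) : Prop where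
  kills : KillsTateTensors ρ 𝔥
  reductive : ReductiveOfRank (scalars ℓ 𝔤) 𝔥 r
  centre : CentreOfWeights w 𝔥
  partA : Contained (scalars ℓ (ratPartA 𝔤)) 𝔥

/-- For every single `i ∈ J`, all Tate endomorphisms of `M i` are motivated: the endomorphisms of its
realization which commute with a subgroup of finite index of `Γ` commute with `𝔤 ⊗ ℚ_ℓ`. -/
def EndosMotivated (ρ : Reps Γ n ℓ) (𝔤 : Submodule ℚ (End ℚ (Betti n))) (J : Set ι) : Prop :=
  ∀ i ∈ J, EndosCommute (ρ i) (actionOn (scalars ℓ 𝔤) i)

/-- What is proved for a member of the family, with the realization `ρ` at the prime number `ℓ`. -/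
structure AtMember (w : ι → ℤ) (ρ : Reps Γ n ℓ) (𝔤 : Submodule ℚ (End ℚ (Betti n))) (r : ℕ) :
    Prop where
  /-- The representation is semisimple over all finite extensions of `ℚ`. -/
  semisimple : Semisimple ρ
  /-- The Lie algebra of the Tate tensors. -/
  algebra : ∃ 𝔥 : EndSpace n ℓ, TateAlgebra w ρ 𝔤 r 𝔥
  /-- If all Tate endomorphisms of the single `M i`, `i ∈ J`, are motivated, then so are all Tate
  tensors on their sum. -/
  tensors : ∀ J : Set ι, EndosMotivated ρ 𝔤 J →
    TateOnImage (sumRep ρ) (scalars ℓ 𝔤) (partOf J)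
  /-- If moreover the elements of `𝔤` which act as zero on the `M i`, `i ∈ J`, are in the part of type
  A, then all Tate tensors are motivated. -/
  tate : ∀ J : Set ι, EndosMotivated ρ 𝔤 J → InPartA 𝔤 (zeroOn n J) → TateMotivated ρ 𝔤

end parts

end Pool.Agent.N203.FB
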