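import Mathlib

/-!
# Open subgroups which detect the image of an `ℓ`-adic representation
-/

set_option autoImplicit false
set_option linter.unusedSectionVars false

namespace Pool.Agent.N203.FB

open Matrix Topology Filter

section cls

variable {Γ : Type} [Group Γ] {ℓ : ℕ} [hℓ : Fact ℓ.Prime] {N : ℕ}

/-- integral matrices as matrices over `ℚ_ℓ` -/
noncomputable def cc (ℓ : ℕ) [Fact ℓ.Prime] (N : ℕ) :
    Matrix (Fin N) (Fin N) ℤ_[ℓ] →+* Matrix (Fin N) (Fin N) ℚ_[ℓ] :=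
  (algebraMap ℤ_[ℓ] ℚ_[ℓ]).mapMatrix

/-- reduction modulo `ℓ` -/
noncomputable def red (ℓ : ℕ) [Fact ℓ.Prime] (N : ℕ) :
    Matrix (Fin N) (Fin N) ℤ_[ℓ] →+* Matrix (Fin N) (Fin N) (ZMod ℓ) :=
  (PadicInt.toZMod (p := ℓ)).mapMatrix

theorem cc_inj : Function.Injective (cc ℓ N) := by
  intro A B h
  ext i j
  have h1 : ((A i j : ℤ_[ℓ]) : ℚ_[ℓ]) = B i j := congrFun (congrFun h i) j
  exact Subtype.ext h1

theorem red_zero {X : Matrix (Fin N) (Fin N) ℤ_[ℓ]} (h : red ℓ N X = 0) :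
    ∃ Y, X = (ℓ : ℤ_[ℓ]) • Y := by
  have h1 : ∀ i j, ∃ y : ℤ_[ℓ], X i j = (ℓ : ℤ_[ℓ]) * y := by
    intro i j
    have h2 : PadicInt.toZMod (X i j) = 0 := congrFun (congrFun h i) j
    have h3 : X i j ∈ RingHom.ker (PadicInt.toZMod (p := ℓ)) := h2
    rw [PadicInt.ker_toZMod, PadicInt.maximalIdeal_eq_span_p, Ideal.mem_span_singleton] at h3
    exact h3
  choose Y hY using h1
  exact ⟨Matrix.of Y, by ext i j; rw [hY]; rfl⟩

theorem red_l (Y : Matrix (Fin N) (Fin N) ℤ_[ℓ]) : red ℓ N ((ℓ : ℤ_[ℓ]) • Y) = 0 := by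
  ext i j
  show PadicInt.toZMod ((ℓ : ℤ_[ℓ]) * Y i j) = 0
  rw [map_mul, map_natCast, ZMod.natCast_self, zero_mul]

variable (τ : Γ →* Matrix (Fin N) (Fin N) ℚ_[ℓ])

/-- `τ γ` is congruent to `1` modulo `ℓ ^ m`, and `x` is the class of the quotient -/
def cls (m : ℕ) (γ : Γ) (x : Matrix (Fin N) (Fin N) (ZMod ℓ)) : Prop :=
  ∃ X : Matrix (Fin N) (Fin N) ℤ_[ℓ], τ γ = cc ℓ N (1 + (ℓ : ℤ_[ℓ]) ^ m • X) ∧ red ℓ N X = x

variable {τ}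

theorem l_pow_inj {m : ℕ} {X Y : Matrix (Fin N) (Fin N) ℤ_[ℓ]}
    (h : (ℓ : ℤ_[ℓ]) ^ m • X = (ℓ : ℤ_[ℓ]) ^ m • Y) : X = Y := by
  ext i j
  have h1 := congrFun (congrFun h i) j
  have h2 : (ℓ : ℤ_[ℓ]) ^ m * X i j = (ℓ : ℤ_[ℓ]) ^ m * Y i j := h1
  have h3 : (ℓ : ℤ_[ℓ]) ^ m ≠ 0 := pow_ne_zero _ (by exact_mod_cast hℓ.out.ne_zero)
  rw [mul_right_inj' h3] at h2
  rw [h2]

theorem cls_mul {m : ℕ} (hm : 1 ≤ m) {γ δ : Γ} {x y : Matrix (Fin N) (Fin N) (ZMod ℓ)}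
    (h1 : cls τ m γ x) (h2 : cls τ m δ y) : cls τ m (γ * δ) (x + y) := by
  obtain ⟨X, hX, rfl⟩ := h1
  obtain ⟨Y, hY, rfl⟩ := h2
  obtain ⟨k, rfl⟩ := Nat.exists_eq_add_of_le hm
  refine ⟨X + Y + (ℓ : ℤ_[ℓ]) • ((ℓ : ℤ_[ℓ]) ^ k • (X * Y)), ?_, ?_⟩
  · rw [map_mul, hX, hY, ← map_mul]
    congr 1
    rw [add_mul, one_mul, mul_add, mul_one, smul_mul_smul_comm, smul_add, smul_add, smul_smul,
      smul_smul]
    rw [show (ℓ : ℤ_[ℓ]) ^ (1 + k) * (ℓ : ℤ_[ℓ]) * (ℓ : ℤ_[ℓ]) ^ k =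
      (ℓ : ℤ_[ℓ]) ^ (1 + k) * (ℓ : ℤ_[ℓ]) ^ (1 + k) by ring]
    abel
  · rw [map_add, map_add, red_l, add_zero]

theorem cls_unique {m : ℕ} {γ : Γ} {x y : Matrix (Fin N) (Fin N) (ZMod ℓ)} (h1 : cls τ m γ x)
    (h2 : cls τ m γ y) : x = y := by
  obtain ⟨X, hX, rfl⟩ := h1
  obtain ⟨Y, hY, rfl⟩ := h2
  rw [hX] at hY
  have h3 := cc_inj hY
  rw [l_pow_inj (add_left_cancel h3)]

theorem cls_one (m : ℕ) : cls τ m 1 0 := by
  refine ⟨0, ?_, map_zero _⟩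
  rw [map_one, smul_zero, add_zero, map_one]

theorem cls_inv {m : ℕ} (hm : 1 ≤ m) {γ : Γ} {x y : Matrix (Fin N) (Fin N) (ZMod ℓ)}
    (h1 : cls τ m γ x) (h2 : cls τ m γ⁻¹ y) : cls τ m γ⁻¹ (-x) := by
  have h3 := cls_mul hm h1 h2
  rw [mul_inv_cancel] at h3
  have h4 : x + y = 0 := cls_unique h3 (cls_one m)
  rwa [← eq_neg_of_add_eq_zero_right h4]

theorem cls_succ {m : ℕ} {γ : Γ} (h : cls τ m γ 0) : ∃ y, cls τ (m + 1) γ y := by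
  obtain ⟨X, hX, h0⟩ := h
  obtain ⟨Y, rfl⟩ := red_zero h0
  exact ⟨_, Y, by rw [hX, smul_smul, ← pow_succ], rfl⟩

theorem cls_pred {m : ℕ} {γ : Γ} {y : Matrix (Fin N) (Fin N) (ZMod ℓ)}
    (h : cls τ (m + 1) γ y) : cls τ m γ 0 := by
  obtain ⟨Y, hY, -⟩ := h
  exact ⟨(ℓ : ℤ_[ℓ]) • Y, by rw [hY, smul_smul, ← pow_succ], red_l Y⟩

theorem pow_form (E : Matrix (Fin N) (Fin N) ℤ_[ℓ]) (n : ℕ) :
    ∃ Q, (1 + E) ^ n = 1 + (n : ℤ_[ℓ]) • E + E * E * Q := by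
  induction n with
  | zero => exact ⟨0, by simp⟩
  | succ n ih =>
    obtain ⟨Q, hQ⟩ := ih
    refine ⟨(n : ℤ_[ℓ]) • 1 + Q + Q * E, ?_⟩
    rw [pow_succ, hQ]
    push_cast
    rw [mul_add, mul_one, add_mul, add_mul, one_mul, add_smul, one_smul, mul_add, mul_add,
      mul_smul_comm, mul_one, smul_mul_assoc, mul_assoc (E * E) Q E]
    abel

theorem cls_pow {m : ℕ} (hm : 2 ≤ m) {γ : Γ} {x : Matrix (Fin N) (Fin N) (ZMod ℓ)}
    (h : cls τ m γ x) : cls τ (m + 1) (γ ^ ℓ) x := by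
  obtain ⟨X, hX, rfl⟩ := h
  obtain ⟨Q, hQ⟩ := pow_form ((ℓ : ℤ_[ℓ]) ^ m • X) ℓ
  obtain ⟨k, rfl⟩ := Nat.exists_eq_add_of_le hm
  refine ⟨X + (ℓ : ℤ_[ℓ]) • ((ℓ : ℤ_[ℓ]) ^ k • (X * X * Q)), ?_, ?_⟩
  · rw [map_pow, hX, ← map_pow, hQ]
    congr 1
    rw [smul_mul_smul_comm, smul_mul_assoc, smul_add, smul_smul, smul_smul, smul_smul, add_assoc]
    congr 2
    · congr 1
      ring
    · congr 1
      ring
  · rw [map_add, red_l, add_zero]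

theorem cls_pow_iter {m : ℕ} (hm : 2 ≤ m) {γ : Γ} {x : Matrix (Fin N) (Fin N) (ZMod ℓ)}
    (h : cls τ m γ x) (k : ℕ) : cls τ (m + k) (γ ^ (ℓ ^ k)) x := by
  induction k with
  | zero => simpa using h
  | succ k ih =>
    rw [pow_succ, pow_mul, ← add_assoc]
    exact cls_pow (by omega) ih

variable (τ) in
/-- the elements congruent to `1` modulo `ℓ ^ m` -/
def KK (m : ℕ) (hm : 1 ≤ m) : Subgroup Γ where
  carrier := {γ | (∃ x, cls τ m γ x) ∧ ∃ y, cls τ m γ⁻¹ y}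
  mul_mem' := by
    rintro a b ⟨⟨x, hx⟩, ⟨y, hy⟩⟩ ⟨⟨x', hx'⟩, ⟨y', hy'⟩⟩
    refine ⟨⟨_, cls_mul hm hx hx'⟩, ⟨y' + y, ?_⟩⟩
    rw [_root_.mul_inv_rev]
    exact cls_mul hm hy' hy
  one_mem' := by
    refine ⟨⟨0, cls_one m⟩, 0, ?_⟩
    rw [inv_one]
    exact cls_one m
  inv_mem' := by
    rintro a ⟨hx, hy⟩
    refine ⟨hy, ?_⟩
    rwa [inv_inv]

theorem mem_KK {m : ℕ} {hm : 1 ≤ m} {γ : Γ} :
    γ ∈ KK τ m hm ↔ (∃ x, cls τ m γ x) ∧ ∃ y, cls τ m γ⁻¹ y := Iff.rfl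

end cls

section top

variable {Γ : Type} [Group Γ] [TopologicalSpace Γ] [IsTopologicalGroup Γ] {ℓ : ℕ}
  [hℓ : Fact ℓ.Prime] {N : ℕ} {τ : Γ →* Matrix (Fin N) (Fin N) ℚ_[ℓ]}

theorem int_of_norm {m : ℕ} {a : ℚ_[ℓ]} (h : ‖a‖ ≤ (ℓ : ℝ) ^ (-(m : ℤ))) :
    ∃ b : ℤ_[ℓ], a = (ℓ : ℚ_[ℓ]) ^ m * b := by
  have hl : (0 : ℝ) < ℓ := by exact_mod_cast hℓ.out.pos
  have hl' : (ℓ : ℚ_[ℓ]) ≠ 0 := by exact_mod_cast hℓ.out.ne_zero
  refine ⟨⟨a / (ℓ : ℚ_[ℓ]) ^ m, ?_⟩, ?_⟩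
  · rw [norm_div, norm_pow, Padic.norm_p, div_le_one (by positivity), inv_pow, ← zpow_natCast,
      ← _root_.zpow_neg]
    exact h
  · show a = (ℓ : ℚ_[ℓ]) ^ m * (a / (ℓ : ℚ_[ℓ]) ^ m)
    rw [mul_div_cancel₀ _ (pow_ne_zero _ hl')]

theorem cls_iff {m : ℕ} {γ : Γ} : (∃ x, cls τ m γ x) ↔
    ∀ i j, ‖(τ γ - 1) i j‖ ≤ (ℓ : ℝ) ^ (-(m : ℤ)) := by
  constructor
  · rintro ⟨x, X, hX, -⟩ i j
    have h1 : (τ γ - 1) i j = (ℓ : ℚ_[ℓ]) ^ m * (X i j : ℚ_[ℓ]) := by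
      rw [hX, map_add, map_one, add_sub_cancel_left]
      show (((ℓ : ℤ_[ℓ]) ^ m * X i j : ℤ_[ℓ]) : ℚ_[ℓ]) = _
      push_cast
      rfl
    rw [h1, norm_mul, norm_pow, Padic.norm_p, inv_pow, ← zpow_natCast, ← _root_.zpow_neg]
    exact mul_le_of_le_one_right (by positivity) (PadicInt.norm_le_one _)
  · intro h
    have h1 : ∀ i j, ∃ b : ℤ_[ℓ], (τ γ - 1) i j = (ℓ : ℚ_[ℓ]) ^ m * b := fun i j =>
      int_of_norm (h i j)
    choose B hB using h1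
    refine ⟨_, Matrix.of B, ?_, rfl⟩
    rw [map_add, map_one, ← sub_eq_iff_eq_add']
    ext i j
    rw [hB]
    show _ = (((ℓ : ℤ_[ℓ]) ^ m * B i j : ℤ_[ℓ]) : ℚ_[ℓ])
    push_cast
    rfl

theorem isOpen_KK (hτ : Continuous τ) (m : ℕ) (hm : 1 ≤ m) :
    IsOpen (KK τ m hm : Set Γ) := by
  have hl : (0 : ℝ) < ℓ := by exact_mod_cast hℓ.out.pos
  have h0 : IsOpen {γ : Γ | ∃ x, cls τ m γ x} := by
    have h1 : {γ : Γ | ∃ x, cls τ m γ x} = ⋂ i : Fin N, ⋂ j : Fin N,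
        (fun γ => (τ γ - 1) i j) ⁻¹' Metric.closedBall 0 ((ℓ : ℝ) ^ (-(m : ℤ))) := by
      ext γ
      simp only [Set.mem_iInter, Set.mem_preimage, mem_closedBall_zero_iff]
      exact cls_iff
    rw [h1]
    refine isOpen_iInter_of_finite fun i => isOpen_iInter_of_finite fun j => ?_
    refine (IsUltrametricDist.isOpen_closedBall _ (by positivity)).preimage ?_
    exact (continuous_apply_apply i j).comp (hτ.sub continuous_const)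
  exact h0.inter (h0.preimage continuous_inv)

theorem tendsto_of_cls {u : ℕ → Γ} (h : ∀ m, ∃ x, cls τ m (u m) x) :
    Tendsto (fun m => τ (u m)) atTop (𝓝 1) := by
  have hl : (1 : ℝ) < ℓ := by exact_mod_cast hℓ.out.one_lt
  have h1 : Tendsto (fun m : ℕ => (ℓ : ℝ) ^ (-(m : ℤ))) atTop (𝓝 0) := by
    have h2 := tendsto_pow_atTop_nhds_zero_of_lt_one (r := (ℓ : ℝ)⁻¹) (by positivity)
      (inv_lt_one_of_one_lt₀ hl)
    refine h2.congr fun m => ?_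
    rw [_root_.zpow_neg, zpow_natCast, inv_pow]
  have h3 : Tendsto (fun m => τ (u m) - 1) atTop (𝓝 0) := by
    refine tendsto_pi_nhds.2 fun i => tendsto_pi_nhds.2 fun j => ?_
    exact squeeze_zero_norm (fun m => cls_iff.1 (h m) i j) h1
  have h4 := h3.add_const (1 : Matrix (Fin N) (Fin N) ℚ_[ℓ])
  simpa using h4

theorem finiteIndex_of_open [CompactSpace Γ] {H : Subgroup Γ} (h : IsOpen (H : Set Γ)) :
    H.FiniteIndex := by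
  have : Finite (Γ ⧸ H) := Subgroup.quotient_finite_of_isOpen H h
  exact Subgroup.finiteIndex_of_finite_quotient

/-- **An open normal subgroup detects the image.** -/
theorem frattini [CompactSpace Γ] (hτ : Continuous τ) :
    ∃ Δ : Subgroup Γ, Δ.Normal ∧ IsOpen (Δ : Set Γ) ∧ ∀ D : Subgroup Γ, IsCompact (D : Set Γ) →
      (∀ γ, ∃ d ∈ D, d⁻¹ * γ ∈ Δ) → ∀ γ, ∃ d ∈ D, τ d = τ γ := by
  classical
  -- the stable range
  let g : ℕ → Set (Matrix (Fin N) (Fin N) (ZMod ℓ)) := fun m =>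
    {x | ∃ γ ∈ KK τ (m + 2) (by omega), cls τ (m + 2) γ x}
  have hg : Monotone g := by
    refine monotone_nat_of_le_succ fun m => ?_
    rintro x ⟨γ, hγ, hx⟩
    obtain ⟨y, hy⟩ := (mem_KK.1 hγ).2
    refine ⟨γ ^ ℓ, ⟨⟨x, ?_⟩, y, ?_⟩, ?_⟩
    · exact cls_pow (by omega) hx
    · rw [← inv_pow]
      exact cls_pow (by omega) hy
    · exact cls_pow (by omega) hx
  obtain ⟨m₀, hm₀⟩ := WellFoundedGT.monotone_chain_condition ⟨g, hg⟩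
  have hm₀ : ∀ m ≥ m₀, g m = g m₀ := fun m hm => (hm₀ m hm).symm
  refine ⟨(KK τ (m₀ + 3) (by omega)).normalCore, inferInstance, ?_, ?_⟩
  · have h1 : IsOpen (KK τ (m₀ + 3) (by omega) : Set Γ) := isOpen_KK hτ _ _
    have : (KK τ (m₀ + 3) (by omega)).FiniteIndex := finiteIndex_of_open h1
    exact Subgroup.isOpen_of_isClosed_of_finiteIndex _ (Subgroup.normalCore_isClosed _
      (Subgroup.isClosed_of_isOpen _ h1))
  intro D hD hDΔ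
  have hD0 : ∀ γ, ∃ d ∈ D, d⁻¹ * γ ∈ KK τ (m₀ + 3) (by omega) := by
    intro γ
    obtain ⟨d, hd, h⟩ := hDΔ γ
    exact ⟨d, hd, Subgroup.normalCore_le _ h⟩
  -- better and better approximation
  have key : ∀ k : ℕ, ∀ γ, ∃ d ∈ D, d⁻¹ * γ ∈ KK τ (m₀ + 3 + k) (by omega) := by
    intro k
    induction k with
    | zero => exact hD0
    | succ k ih =>
      intro γ
      obtain ⟨d, hd, hδ⟩ := ih γ
      obtain ⟨⟨x, hx⟩, ⟨x', hx'⟩⟩ := mem_KK.1 hδ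
      have hxg : x ∈ g m₀ := by
        rw [← hm₀ (m₀ + 1 + k) (by omega)]
        refine ⟨d⁻¹ * γ, ?_, ?_⟩
        · have h1 : m₀ + 1 + k + 2 = m₀ + 3 + k := by omega
          simp only [h1]
          exact hδ
        · have h1 : m₀ + 1 + k + 2 = m₀ + 3 + k := by omega
          rw [h1]
          exact hx
      obtain ⟨γ₀, hγ₀, hx₀⟩ := hxg
      obtain ⟨d₀, hd₀, hd₀'⟩ := hD0 γ₀
      obtain ⟨y₀, hy₀⟩ := (mem_KK.1 hγ₀).2
      obtain ⟨⟨z, hz⟩, ⟨z', hz'⟩⟩ := mem_KK.1 hd₀'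
      -- the class of `d₀`
      have hc1 : cls τ (m₀ + 2) d₀ x := by
        have h1 := cls_mul (by omega) hx₀ (cls_pred hz')
        rw [add_zero] at h1
        have h2 : γ₀ * (d₀⁻¹ * γ₀)⁻¹ = d₀ := by group
        rwa [h2] at h1
      have hc2 : ∃ y, cls τ (m₀ + 2) d₀⁻¹ y := by
        have h1 := cls_mul (by omega) (cls_pred hz) hy₀
        have h2 : d₀⁻¹ * γ₀ * γ₀⁻¹ = d₀⁻¹ := by group
        rw [h2] at h1
        exact ⟨_, h1⟩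
      obtain ⟨y₁, hc2⟩ := hc2
      have e1 : m₀ + 2 + (k + 1) = m₀ + 3 + k := by omega
      have hd1 := cls_pow_iter (by omega) hc1 (k + 1)
      have hd2 := cls_pow_iter (by omega) hc2 (k + 1)
      rw [e1] at hd1 hd2
      rw [inv_pow] at hd2
      have hd3 := cls_inv (by omega) hd1 hd2
      have hx3 := cls_inv (by omega) hx hx'
      refine ⟨d * d₀ ^ (ℓ ^ (k + 1)), mul_mem hd (pow_mem hd₀ _), ?_, ?_⟩
      · have h1 := cls_mul (by omega) hd3 hx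
        rw [neg_add_cancel] at h1
        have h2 : (d * d₀ ^ (ℓ ^ (k + 1)))⁻¹ * γ = (d₀ ^ (ℓ ^ (k + 1)))⁻¹ * (d⁻¹ * γ) := by group
        rw [h2]
        exact cls_succ h1
      · have h1 := cls_mul (by omega) hx3 hd1
        rw [neg_add_cancel] at h1
        have h2 : ((d * d₀ ^ (ℓ ^ (k + 1)))⁻¹ * γ)⁻¹ = (d⁻¹ * γ)⁻¹ * d₀ ^ (ℓ ^ (k + 1)) := by group
        rw [h2]
        exact cls_succ h1
  intro γ
  have hcl : τ γ ∈ closure (τ '' (D : Set Γ)) := by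
    choose d hdD hd using fun m => key m γ
    have h1 : ∀ m, ∃ x, cls τ m ((d m)⁻¹ * γ)⁻¹ x := by
      intro m
      have h2 : ∃ y, cls τ (m₀ + 3 + m) ((d m)⁻¹ * γ)⁻¹ y := (hd m).2
      have h3 : ∀ j, (∃ y, cls τ (m + j) ((d m)⁻¹ * γ)⁻¹ y) →
          ∃ y, cls τ m ((d m)⁻¹ * γ)⁻¹ y := by
        intro j
        induction j with
        | zero => exact fun h => h
        | succ j ih =>
          rintro ⟨y, hy⟩
          exact ih ⟨0, cls_pred hy⟩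
      refine h3 (m₀ + 3) ?_
      rwa [add_comm m]
    have h2 := (tendsto_of_cls h1).const_mul (τ γ)
    rw [mul_one] at h2
    refine mem_closure_of_tendsto h2 (Eventually.of_forall fun m => ⟨d m, hdD m, ?_⟩)
    rw [← map_mul]
    congr 1
    group
  rw [(hD.image hτ).isClosed.closure_eq] at hcl
  obtain ⟨d, hd, h⟩ := hcl
  exact ⟨d, hd, h⟩

end top

end Pool.Agent.N203.FB
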