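import Pool.Agent.N203.FB.Blk
import Pool.Agent.N203.FB.Frat
import Pool.Agent.N203.FB.Defs

/-!
# Families: one cover for all prime numbers
-/

set_option autoImplicit false
set_option linter.unusedSectionVars false
set_option linter.unusedVariables false

namespace Pool.Agent.N203.FB

open NumberField IsDedekindDomain Module Polynomial TensorProduct Pool.Agent.W569.FM
  Pool.Agent.W571.FM Pool.Agent.Y115.T Pool.Agent.TH118.SG Pool.Agent.Y114.RM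
  Pool.Agent.Y114.MU Pool.Agent.Y114.TF Pool.Agent.Y114.GF Pool.Agent.R931.IR Pool.Agent.R931.BD
  Pool.Agent.N203.RE Pool.Agent.Y212.RM Pool.Agent.N203.TA

section tensors

variable {k : Type} [Field k] {V : Type} [AddCommGroup V] [Module k V] {m : ℕ}

theorem lie_add (X Y : End k V) (v : V × Dual k V) : lie (X + Y) v = lie X v + lie Y v := by
  refine Prod.ext rfl ?_
  refine LinearMap.ext fun x => ?_
  show -(v.2 ((X + Y) x)) = -(v.2 (X x)) + -(v.2 (Y x))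
  rw [LinearMap.add_apply, map_add]
  abel

theorem kills_add {X Y : End k V} {φ : Tensor k V m} (hX : KillsTensor X φ)
    (hY : KillsTensor Y φ) : KillsTensor (X + Y) φ := by
  intro v
  have h1 : ∀ l, φ (Function.update v l (lie (X + Y) (v l))) =
      φ (Function.update v l (lie X (v l))) + φ (Function.update v l (lie Y (v l))) := by
    intro l
    rw [lie_add, MultilinearMap.map_update_add]
  simp_rw [h1]
  rw [Finset.sum_add_distrib, hX v, hY v, add_zero]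

end tensors

theorem ratPartA_mem {H : Type} [AddCommGroup H] [Module ℚ H] {𝔤 : Submodule ℚ (End ℚ H)}
    {X : End ℚ H} (hX : X ∈ ratPartA 𝔤) : X.baseChange ℂ ∈ partA 𝔤 := by
  have h1 : ratPartA 𝔤 ≤ ((partA 𝔤).restrictScalars ℚ).comap
      (LinearMap.baseChangeHom ℚ ℂ H H) := by
    refine sSup_le ?_
    rintro 𝔞 ⟨-, h𝔞⟩ Y hY
    exact h𝔞 (mem_bcS hY)
  exact h1 hX

/-- The part of type A consists of the elements which are in the part of type A over the complex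
numbers. -/
theorem mem_ratPartA {H : Type} [AddCommGroup H] [Module ℚ H] {𝔤 : Submodule ℚ (End ℚ H)}
    {X : End ℚ H} : X ∈ ratPartA 𝔤 ↔ X ∈ 𝔤 ∧ X.baseChange ℂ ∈ partA 𝔤 := by
  refine ⟨fun hX => ⟨?_, ratPartA_mem hX⟩, fun ⟨h1, h2⟩ => ?_⟩
  · have h1 : ratPartA 𝔤 ≤ 𝔤 := sSup_le fun 𝔞 h => h.1
    exact h1 hX
  · have h3 : Submodule.span ℚ {X} ≤ ratPartA 𝔤 := by
      refine le_sSup ⟨?_, ?_⟩
      · rw [Submodule.span_singleton_le_iff_mem]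
        exact h1
      · refine Submodule.span_le.2 ?_
        rintro _ ⟨Y, hY, rfl⟩
        obtain ⟨c, rfl⟩ := Submodule.mem_span_singleton.1 hY
        rw [LinearMap.baseChange_smul]
        have h4 : c • X.baseChange ℂ = (c : ℂ) • X.baseChange ℂ := by
          rw [← Rat.cast_smul_eq_qsmul ℂ]
        rw [h4]
        exact Submodule.smul_mem _ _ h2
    exact h3 (Submodule.mem_span_singleton_self X)

section parts

variable {ι : Type} [Fintype ι] [DecidableEq ι] {n : ι → ℕ} {ℓ : ℕ} [hℓ : Fact ℓ.Prime]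

theorem endos_image {Γ : Type} [Group Γ] {i : ι}
    {ρ : Representation ℚ_[ℓ] Γ (Fin (n i) → ℚ_[ℓ])}
    {𝔥 : Submodule ℚ_[ℓ] (End ℚ_[ℓ] (∀ i, Fin (n i) → ℚ_[ℓ]))}
    (hparts : ∀ X ∈ 𝔥, ∀ x i, X x i = X (Pi.single i (x i)) i)
    (h : EndosCommute ρ (actionOn (k := ℚ_[ℓ]) (V := fun i => Fin (n i) → ℚ_[ℓ]) 𝔥 i)) :
    EndosCommute ρ (imageIn (k := ℚ_[ℓ]) (V := fun i => Fin (n i) → ℚ_[ℓ]) 𝔥 i) := by
  rintro Y hY _ ⟨X, hX, rfl⟩
  exact h Y hY _ (Submodule.subset_span ⟨X, hX, fun x => hparts X hX x i⟩)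

open Classical in
theorem partOf_apply (J : Set ι) (x : ∀ i, Fin (n i) → ℚ_[ℓ]) (i : ι) :
    partOf (k := ℚ_[ℓ]) (V := fun i => Fin (n i) → ℚ_[ℓ]) J x i = if i ∈ J then x i else 0 := by
  unfold partOf
  rw [LinearMap.pi_apply]
  split_ifs
  · rfl
  · rfl

/-- An element which kills the summands in `J` kills the tensors on their sum. -/
theorem kills_of_zero {J : Set ι} {Z : End ℚ_[ℓ] (∀ i, Fin (n i) → ℚ_[ℓ])}
    (hZ : ∀ x i, Z x i = Z (Pi.single i (x i)) i) (h0 : ∀ i ∈ J, Z * prL n ℓ i = 0) {m : ℕ}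
    {φ : Tensor ℚ_[ℓ] (∀ i, Fin (n i) → ℚ_[ℓ]) m} (hφ : TensorOnImage (partOf J) φ) :
    KillsTensor Z φ := by
  classical
  have h1 : ∀ i ∈ J, ∀ x, Z x i = 0 := by
    intro i hi x
    rw [hZ]
    have h2 := LinearMap.congr_fun (h0 i hi) x
    rw [Module.End.mul_apply] at h2
    exact congrFun h2 i
  have h2 : ∀ x, partOf (k := ℚ_[ℓ]) (V := fun i => Fin (n i) → ℚ_[ℓ]) J (Z x) = 0 := by
    intro x
    funext i
    rw [partOf_apply]
    split_ifs with hi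
    · exact h1 i hi x
    · rfl
  have h3 : ∀ x, Z (partOf (k := ℚ_[ℓ]) (V := fun i => Fin (n i) → ℚ_[ℓ]) J x) = 0 := by
    intro x
    funext i
    by_cases hi : i ∈ J
    · exact h1 i hi _
    · rw [hZ, partOf_apply, if_neg hi, Pi.single_zero, map_zero]
  intro v
  refine Finset.sum_eq_zero fun l _ => ?_
  rw [← hφ]
  refine MultilinearMap.map_coord_zero φ l ?_
  rw [Function.update_self]
  refine Prod.ext (h2 _) ?_
  refine LinearMap.ext fun x => ?_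
  show -((v l).2 (Z (partOf J x))) = 0
  rw [h3, map_zero, neg_zero]

/-- the rational projector -/
def prQ (n : ι → ℕ) (i : ι) : End ℚ (Betti n) := pr ℚ (fun i => Fin (n i) → ℚ) i

theorem prQ_apply (i : ι) (x : Betti n) : prQ n i x = (Pi.single i (x i) : ∀ i, Fin (n i) → ℚ) :=
  rfl

theorem toLadic_single (i : ι) (x : Betti n) :
    toLadic ℓ (prQ n i x) = Pi.single i (toLadic ℓ x i) := by
  funext j k
  by_cases hj : j = i
  · subst hj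
    rw [Pi.single_eq_same]
    show (((Pi.single j (x j) : ∀ i, Fin (n i) → ℚ) j k : ℚ) : ℚ_[ℓ]) = _
    rw [Pi.single_eq_same]
    rfl
  · rw [Pi.single_eq_of_ne hj]
    show (((Pi.single i (x i) : ∀ i, Fin (n i) → ℚ) j k : ℚ) : ℚ_[ℓ]) = _
    rw [Pi.single_eq_of_ne hj]
    simp

theorem prQ_extends (i : ι) : Extends (prQ n i) (prL n ℓ i) := by
  intro x
  rw [toLadic_single]
  rfl

theorem parts_rat {𝔤 : Submodule ℚ (End ℚ (Betti n))}
    (hparts : ∀ X ∈ scal ℓ 𝔤, ∀ x i, X x i = X (Pi.single i (x i)) i) {X : End ℚ (Betti n)}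
    (hX : X ∈ 𝔤) (x : Betti n) (i : ι) : X x i = X (prQ n i x) i := by
  have h1 : Extends X ((ee ℓ).conj (X.baseChange ℚ_[ℓ])) := (extends_iff ℓ X _).2 rfl
  have h2 := hparts _ ((mem_scalars ℓ).2 (mem_bcS hX)) (toLadic ℓ x) i
  rw [h1, ← toLadic_single, h1] at h2
  funext j
  have h3 := congrFun h2 j
  have h4 : ((X x i j : ℚ) : ℚ_[ℓ]) = (X (prQ n i x) i j : ℚ) := h3
  exact_mod_cast h4

end parts

section single

variable {Γ : Type} [Group Γ] [TopologicalSpace Γ]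
  {ι : Type} [Fintype ι] [DecidableEq ι] {n : ι → ℕ} [IsTopologicalGroup Γ] [CompactSpace Γ]

/-- One motive. -/
theorem single {s : Gal(AlgebraicClosure ℚ/ℚ) →* Γ} {w : ι → ℤ}
    {S : Set (HeightOneSpectrum (𝓞 ℚ))} {P : HeightOneSpectrum (𝓞 ℚ) → ι → Polynomial ℚ}
    {ρ : ∀ (ℓ : ℕ) [Fact ℓ.Prime], Reps Γ n ℓ} {𝔤 : Submodule ℚ (End ℚ (Betti n))}
    (h : Realizations s w S P ρ 𝔤) (c : ℕ) (hint : IntegralOutside S P c)
    (r : ℕ) (hrank : RatRankLE 𝔤 r) (ℓ₀ : ℕ) [hℓ₀ : Fact ℓ₀.Prime]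
    (hgen : FullElementsGenerate s (ρ ℓ₀) r) (ℓ : ℕ) [hℓ : Fact ℓ.Prime] :
    AtMember w (ρ ℓ) 𝔤 r := by
  obtain ⟨L, alg, t, hss, hLT, hLie, hLG, hND, hrk, -, htL, hdiag, hcomm, hct⟩ :=
    tuple s h.continuous_point w c S h.finite P ℓ₀ (ρ ℓ₀) (h.continuous ℓ₀)
      (fun v hv hvℓ i => ⟨h.good ℓ₀ v hv hvℓ i, hint v hv i⟩) r hgen.1 ℓ (ρ ℓ) (h.continuous ℓ)
      (h.good ℓ) (scal ℓ 𝔤) (h.motivic ℓ) (rank_scalars ℓ hrank)
  have h𝔤 : IsMotivic (ρ ℓ) (scal ℓ 𝔤) := h.motivic ℓ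
  have hL : ∀ X, X ∈ L ↔ X ∈ LT (sumRep (ρ ℓ)) := fun X =>
    ⟨fun hX => mem_LT_of_semisimple (sumRep (ρ ℓ)) hss ((hLT X).1 hX), fun hX => (hLT X).2 hX.2⟩
  -- a place of full rank
  obtain ⟨σ, hσ⟩ := hgen.1
  have hcont : Conts (restrictTo (ρ ℓ₀) s) := fun i => (h.continuous ℓ₀ i).comp h.continuous_point
  obtain ⟨v₀, hv₀, hind, -⟩ := exists_indep (restrictTo (ρ ℓ₀) s) hcont w c
    (S ∪ {v | Above v ℓ₀} ∪ {v | Above v ℓ})
    ((h.finite.union (finite_above ℓ₀ hℓ₀.out)).union (finite_above ℓ hℓ.out)) P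
    (fun v hv i => ⟨h.good ℓ₀ v (fun h => hv (Or.inl (Or.inl h))) (fun h => hv (Or.inl (Or.inr h)))
      i, hint v (fun h => hv (Or.inl (Or.inl h))) i⟩)
    σ r hσ Set.univ isOpen_univ (Set.mem_univ _)
  have hz : ∀ z ∈ L, (∀ X ∈ L, X * z = z * X) →
      ∃ κ : ℚ_[ℓ], z = κ • wtOp ℚ_[ℓ] (fun i => Fin (n i) → ℚ_[ℓ]) w := by
    intro z hz hzc
    refine central_weight s h.continuous_point w S h.finite P r (h.continuous ℓ) (h.good ℓ) hL hLG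
      h𝔤 (rank_scalars ℓ hrank) (fun h => hv₀ (Or.inl (Or.inl h))) (fun h => hv₀ (Or.inr h))
      (independentRoots_range hind) hz hzc fun σ => ?_
    exact central_comm s h.continuous_point w c S h.finite P ℓ₀ (ρ ℓ₀) (h.continuous ℓ₀)
      (fun v hv hvℓ i => ⟨h.good ℓ₀ v hv hvℓ i, hint v hv i⟩) r hgen (h.continuous ℓ) (h.good ℓ) hL
      hLG h𝔤 (rank_scalars ℓ hrank) hz hzc σ
  have hcen : ∀ z ∈ L, (∀ X ∈ L, X * z = z * X) → ∀ X ∈ scal ℓ 𝔤, X * z = z * X := by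
    intro z hzL hzc X hX
    obtain ⟨κ, rfl⟩ := hz z hzL hzc
    exact wt_comm (h𝔤.parts X hX) w κ
  obtain ⟨hA1, hA2⟩ := partA_le_of hLie hLG h𝔤.bracket h𝔤.nondeg hND htL hdiag hcomm hct hcen
  have hA : ∀ X ∈ partA 𝔤, (TA.uu ℓ).conj X ∈ bcS ℂ L := by
    intro X hX
    unfold partA at hX
    induction hX using Submodule.span_induction with
    | mem X hX =>
      rcases hX with ⟨hX, hXc⟩ | ⟨d, e, he, x, rfl⟩
      · refine hA1 _ ?_ ?_
        · rw [bcS_scal]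
          exact ⟨X, hX, rfl⟩
        · intro Y hY
          rw [bcS_scal] at hY
          obtain ⟨Z, hZ, rfl⟩ := hY
          show (TA.uu ℓ).conj X * (TA.uu ℓ).conj Z = (TA.uu ℓ).conj Z * (TA.uu ℓ).conj X
          rw [← conj_mul', ← conj_mul', hXc Z hZ]
      · have h1 := he.factor (TA.uu (n := n) ℓ)
        rw [← bcS_scal] at h1
        have h2 := hA2 d _ h1 (Matrix.toLin' x)
        rwa [psi_apply, LinearMap.toMatrix'_toLin'] at h2
    | zero => rw [map_zero]; exact Submodule.zero_mem _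
    | add X Y _ _ hX hY => rw [map_add]; exact Submodule.add_mem _ hX hY
    | smul c X _ hX => rw [map_smul]; exact Submodule.smul_mem _ _ hX
  have hB : scal ℓ (ratPartA 𝔤) ≤ L := by
    refine Submodule.span_le.2 ?_
    rintro Y ⟨X, hX, hXY⟩
    obtain ⟨π, hπ⟩ := exists_pi ℚ_[ℓ] ℂ
    have h1 := hA _ (ratPartA_mem hX)
    rw [uu_conj ℓ hXY] at h1
    have h2 := ((inputs.bc ℚ_[ℓ] ℂ _ L).1 _).1 h1 π
    rwa [pM_bc π hπ] at h2
  -- the summands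
  have hNL : NonDeg (bcS ℂ L) := (inputs.bc ℚ_[ℓ] ℂ _ L).2.2.1 hND
  have hLGC : bcS ℂ L ≤ bcS ℂ (scal ℓ 𝔤) := bcS_mono hLG
  have hblock : ∀ J : Set ι, EndosMotivated (ρ ℓ) 𝔤 J → ∀ i ∈ J,
      ∀ Z ∈ perp (bcS ℂ (scal ℓ 𝔤)) (bcS ℂ L), Z * (prL n ℓ i).baseChange ℂ = 0 :=
    fun J hJ i hi => perp_block (ρ ℓ) (h.continuous ℓ) (scal ℓ 𝔤) h𝔤 alg hL hLie hLG hND htL hdiag
      hcomm hct i (endos_image h𝔤.parts (hJ i hi))
  refine ⟨hss, ⟨L, hLT, ⟨hLie, hND, hrk, hLG⟩, ?_, fun X hX => hB hX⟩, ?_, ?_⟩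
  · rintro z ⟨hzL, hzc⟩
    obtain ⟨κ, rfl⟩ := hz z hzL fun X hX => (hzc X hX).symm
    refine ⟨κ, fun x i => ?_⟩
    rw [LinearMap.smul_apply, Pi.smul_apply, wtOp_apply, smul_smul]
  · intro J hJ m φ hφ
    refine ⟨fun hT X hX => ?_, IsMotivic.tate h𝔤 m φ⟩
    obtain ⟨π, hπ⟩ := exists_pi ℚ_[ℓ] ℂ
    obtain ⟨Y, hY, hXY⟩ := perp_split hNL hLGC (mem_bcS hX)
    have hY' : (pM π Y : End ℚ_[ℓ] (∀ i, Fin (n i) → ℚ_[ℓ])) ∈ L :=
      ((inputs.bc ℚ_[ℓ] ℂ _ L).1 _).1 hY π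
    have hZ : (pM π (X.baseChange ℂ - Y) : End ℚ_[ℓ] (∀ i, Fin (n i) → ℚ_[ℓ])) ∈ scal ℓ 𝔤 :=
      ((inputs.bc ℚ_[ℓ] ℂ _ (scal ℓ 𝔤)).1 _).1 hXY.1 π
    have hsub : (pM π (X.baseChange ℂ - Y) : End ℚ_[ℓ] (∀ i, Fin (n i) → ℚ_[ℓ])) =
        X - pM π Y := by
      refine LinearMap.ext fun v => ?_
      have h1 := LinearMap.congr_fun (pM_bc (C := ℂ) π hπ X) v
      rw [pM_apply] at h1
      rw [LinearMap.sub_apply, pM_apply, pM_apply, LinearMap.sub_apply, map_sub, h1]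
    have hX' : X = pM π Y + pM π (X.baseChange ℂ - Y) := by rw [hsub]; abel
    rw [hX']
    refine kills_add ((hLT _).1 hY' m φ hT) (kills_of_zero (h𝔤.parts _ hZ) (fun i hi => ?_) hφ)
    rw [← pM_mul_bc, hblock J hJ i hi _ hXY]
    refine LinearMap.ext fun v => ?_
    rw [pM_apply, LinearMap.zero_apply, map_zero, LinearMap.zero_apply]
  · intro J hJ hker
    have hperp : perp (bcS ℂ (scal ℓ 𝔤)) (bcS ℂ L) = ⊥ := by
      rw [eq_bot_iff]
      intro Z hZ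
      rw [Submodule.mem_bot]
      have hZG := hZ.1
      rw [bcS_scal] at hZG
      obtain ⟨Z₀, hZ₀, hZZ⟩ := hZG
      have hZZ : (TA.uu ℓ).conj Z₀ = Z := hZZ
      let K₀ : Submodule ℚ (End ℚ (Betti n)) :=
        { carrier := {X | X ∈ 𝔤 ∧ ∀ i ∈ J, ∀ x : Betti n, X x i = 0}
          add_mem' := by
            rintro X Y ⟨hX, hX'⟩ ⟨hY, hY'⟩
            refine ⟨𝔤.add_mem hX hY, fun i hi x => ?_⟩
            have h1 : (X + Y) x i = X x i + Y x i := rfl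
            rw [h1, hX' i hi x, hY' i hi x, add_zero]
          zero_mem' := ⟨𝔤.zero_mem, fun i _ x => rfl⟩
          smul_mem' := by
            rintro c X ⟨hX, hX'⟩
            refine ⟨𝔤.smul_mem c hX, fun i hi x => ?_⟩
            have h1 : (c • X) x i = c • X x i := rfl
            rw [h1, hX' i hi x, smul_zero] }
      have hk : Z₀ ∈ bcS ℂ K₀ := by
        rw [(inputs.bc ℚ ℂ _ K₀).1]
        intro π
        have h1 : (pM π Z₀ : End ℚ (Betti n)) ∈ 𝔤 := ((inputs.bc ℚ ℂ _ 𝔤).1 _).1 hZ₀ π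
        refine ⟨h1, fun i hi x => ?_⟩
        rw [parts_rat (ℓ := ℓ) h𝔤.parts h1 x i]
        have h2 : Z₀ * (prQ n i).baseChange ℂ = 0 := by
          apply (TA.uu (n := n) ℓ).conj.injective
          rw [conj_mul', uu_conj ℓ (prQ_extends i), hZZ, hblock J hJ i hi Z hZ, map_zero]
        have h3 : (pM π Z₀ : End ℚ (Betti n)) * prQ n i = 0 := by
          rw [← pM_mul_bc, h2]
          refine LinearMap.ext fun v => ?_
          rw [pM_apply, LinearMap.zero_apply, map_zero, LinearMap.zero_apply]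
        have h4 := LinearMap.congr_fun h3 x
        rw [Module.End.mul_apply] at h4
        rw [h4]
        rfl
      have hK₀ : bcS ℂ K₀ ≤ partA 𝔤 := by
        refine Submodule.span_le.2 ?_
        rintro _ ⟨X, hX, rfl⟩
        exact ratPartA_mem (hker X hX.1 hX.2)
      have h5 := hA _ (hK₀ hk)
      rw [hZZ] at h5
      exact hNL Z h5 hZ.2
    have hfull : L = scal ℓ 𝔤 := by
      refine (inputs.bc ℚ_[ℓ] ℂ _ (scal ℓ 𝔤)).2.2.2.2.1 L hLG (le_antisymm hLGC fun X hX => ?_)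
      obtain ⟨Y, hY, hXY⟩ := perp_split hNL hLGC hX
      rw [hperp, Submodule.mem_bot, sub_eq_zero] at hXY
      rw [hXY]
      exact hY
    intro m φ
    exact ⟨fun hφ X hX => (hLT X).1 (hfull ▸ hX) m φ hφ, IsMotivic.tate h𝔤 m φ⟩

end single

section family

theorem compactQ : CompactSpace Gal(AlgebraicClosure ℚ/ℚ) := (inferInstance : CompactSpace (GF ℚ))

attribute [local instance] compactQ

variable {Γ : Type} [Group Γ] [TopologicalSpace Γ] [IsTopologicalGroup Γ] [CompactSpace Γ]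
  {ι : Type} [Fintype ι] [DecidableEq ι] {n : ι → ℕ}

theorem tate_restrict {ℓ : ℕ} [Fact ℓ.Prime] (ρ : Reps Γ n ℓ)
    (s : Gal(AlgebraicClosure ℚ/ℚ) →* Γ) {m : ℕ}
    {φ : Tensor ℚ_[ℓ] (∀ i, Fin (n i) → ℚ_[ℓ]) m} (h : TateTensor (sumRep ρ) φ) :
    TateTensor (sumRep (restrictTo ρ s)) φ := by
  obtain ⟨Δ, hΔ, h1⟩ := h
  refine ⟨Δ.comap s, finiteIndex_comap s hΔ, fun γ hγ v => ?_⟩
  have h2 := h1 (s γ) hγ v
  rw [← map_inv] at h2
  exact h2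

theorem motivic_restrict {ℓ : ℕ} [Fact ℓ.Prime] {ρ : Reps Γ n ℓ}
    (s : Gal(AlgebraicClosure ℚ/ℚ) →* Γ) {𝔤 : EndSpace n ℓ} (h : Motivic ρ 𝔤) :
    Motivic (restrictTo ρ s) 𝔤 := by
  have h' : IsMotivic ρ 𝔤 := h
  exact { bracket := h'.bracket, parts := h'.parts, nondeg := h'.nondeg,
          semisimple := h'.semisimple, algebraic := h'.algebraic,
          tate := fun m φ hφ => tate_restrict ρ s (h'.tate m φ hφ) }

/-- The realizations of a member of the family, as a motive over `ℚ`. -/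
theorem member {s : Gal(AlgebraicClosure ℚ/ℚ) →* Γ} {w : ι → ℤ}
    {S : Set (HeightOneSpectrum (𝓞 ℚ))} {P : HeightOneSpectrum (𝓞 ℚ) → ι → Polynomial ℚ}
    {ρ : ∀ (ℓ : ℕ) [Fact ℓ.Prime], Reps Γ n ℓ} {𝔤 : Submodule ℚ (End ℚ (Betti n))}
    (h : Realizations s w S P ρ 𝔤) :
    Realizations (MonoidHom.id Gal(AlgebraicClosure ℚ/ℚ)) w S P
      (fun ℓ _ => restrictTo (ρ ℓ) s) 𝔤 where
  continuous_point := continuous_id
  continuous ℓ _ := fun i => (h.continuous ℓ i).comp h.continuous_point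
  finite := h.finite
  good ℓ _ := h.good ℓ
  reductive := h.reductive
  motivic ℓ _ := motivic_restrict s (h.motivic ℓ)

/-- The elements with independent eigenvalues in the member. -/
theorem generate_of {ℓ₀ : ℕ} [Fact ℓ₀.Prime] {ρ₀ : Reps Γ n ℓ₀} (hρ₀ : Conts ρ₀) {r : ℕ}
    (h₀ : FullElementsDense ρ₀ r) {s : Gal(AlgebraicClosure ℚ/ℚ) →* Γ} (hs : Continuous s)
    (him : ∀ γ, ∃ σ, ∀ i, ρ₀ i (s σ) = ρ₀ i γ) :
    FullElementsGenerate (MonoidHom.id Gal(AlgebraicClosure ℚ/ℚ)) (restrictTo ρ₀ s) r := by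
  have hcongr : ∀ γ γ' : Γ, (∀ i, ρ₀ i γ = ρ₀ i γ') → IndependentEigenvalues ρ₀ γ r →
      IndependentEigenvalues ρ₀ γ' r := by
    rintro γ γ' h ⟨κ, z, hz, hz'⟩
    refine ⟨κ, z, fun k => ?_, hz'⟩
    have h1 := hz k
    unfold EigenvalueOf at h1 ⊢
    rwa [← h]
  obtain ⟨⟨γ₁, hγ₁⟩, hd⟩ := h₀
  set X : Set Gal(AlgebraicClosure ℚ/ℚ) := {σ | IndependentEigenvalues ρ₀ (s σ) r} with hX
  obtain ⟨x₁, hx₁⟩ : ∃ x₁, x₁ ∈ X := by
    obtain ⟨σ, hσ⟩ := him γ₁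
    exact ⟨σ, hcongr γ₁ (s σ) (fun i => (hσ i).symm) hγ₁⟩
  refine ⟨⟨x₁, hx₁⟩, ?_⟩
  show Dense (Subgroup.closure X : Set Gal(AlgebraicClosure ℚ/ℚ))
  -- the closed subgroup generated by `X`
  set C : Subgroup Gal(AlgebraicClosure ℚ/ℚ) := (Subgroup.closure X).topologicalClosure with hC
  have hCc : IsCompact (C : Set Gal(AlgebraicClosure ℚ/ℚ)) :=
    (Subgroup.isClosed_topologicalClosure _).isCompact
  have hXC : X ⊆ C := fun x hx => Subgroup.le_topologicalClosure _ (Subgroup.subset_closure hx)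
  let τ : Γ → ∀ i, Matrix (Fin (n i)) (Fin (n i)) ℚ_[ℓ₀] := fun γ i =>
    LinearMap.toMatrix' (ρ₀ i γ)
  have hτ : Continuous τ := continuous_pi fun i => hρ₀ i
  have hcl : IsClosed {γ : Γ | τ γ ∈ (fun σ => τ (s σ)) '' (C : Set Gal(AlgebraicClosure ℚ/ℚ))} :=
    (hCc.image (hτ.comp hs)).isClosed.preimage hτ
  have hτi : ∀ γ γ', τ γ = τ γ' → ∀ i, ρ₀ i γ = ρ₀ i γ' := fun γ γ' h i =>
    LinearMap.toMatrix'.injective (congrFun h i)
  have hτm : ∀ a b a' b' : Γ, τ a = τ a' → τ b = τ b' → τ (a * b) = τ (a' * b') := by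
    intro a b a' b' ha hb
    funext i
    show LinearMap.toMatrix' (ρ₀ i (a * b)) = LinearMap.toMatrix' (ρ₀ i (a' * b'))
    rw [map_mul (ρ₀ i), map_mul (ρ₀ i), hτi a a' ha i, hτi b b' hb i]
  have hτinv : ∀ a a' : Γ, τ a = τ a' → τ a⁻¹ = τ a'⁻¹ := by
    intro a a' ha
    have h1 := hτm _ _ _ _ (hτm a⁻¹ a a⁻¹ a' rfl ha) (rfl : τ a'⁻¹ = τ a'⁻¹)
    rw [inv_mul_cancel, one_mul, mul_inv_cancel_right] at h1
    exact h1.symm
  let D : Subgroup Γ :=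
    { carrier := {γ : Γ | τ γ ∈ (fun σ => τ (s σ)) '' (C : Set Gal(AlgebraicClosure ℚ/ℚ))}
      mul_mem' := by
        rintro a b ⟨σ, hσ, h1⟩ ⟨σ', hσ', h2⟩
        refine ⟨σ * σ', mul_mem hσ hσ', ?_⟩
        show τ (s (σ * σ')) = τ (a * b)
        rw [map_mul]
        exact hτm _ _ _ _ h1 h2
      one_mem' := ⟨1, one_mem _, by show τ (s 1) = τ 1; rw [map_one]⟩
      inv_mem' := by
        rintro a ⟨σ, hσ, h1⟩
        refine ⟨σ⁻¹, inv_mem hσ, ?_⟩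
        show τ (s σ⁻¹) = τ a⁻¹
        rw [map_inv]
        exact hτinv _ _ h1 }
  have hD : (D : Set Γ) = Set.univ := by
    have h1 : Subgroup.closure {γ | IndependentEigenvalues ρ₀ γ r} ≤ D := by
      refine (Subgroup.closure_le D).2 fun γ hγ => ?_
      obtain ⟨σ, hσ⟩ := him γ
      refine ⟨σ, hXC (hcongr γ (s σ) (fun i => (hσ i).symm) hγ), ?_⟩
      funext i
      show LinearMap.toMatrix' (ρ₀ i (s σ)) = LinearMap.toMatrix' (ρ₀ i γ)
      rw [hσ i]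
    have h2 : Dense (D : Set Γ) := hd.mono h1
    have h3 : IsClosed (D : Set Γ) := hcl
    rw [← h3.closure_eq]
    exact h2.closure_eq
  have hCtop : ∀ σ, σ ∈ C := by
    intro σ
    have h1 : s σ ∈ (D : Set Γ) := by rw [hD]; trivial
    obtain ⟨σ', hσ', h2⟩ := h1
    have h2 : τ (s σ') = τ (s σ) := h2
    -- the quotient is in the kernel
    have h3 : ∀ i, ρ₀ i (s (σ'⁻¹ * σ)) = 1 := by
      intro i
      have h4 := hτi _ _ (hτm _ _ _ _ (rfl : τ (s σ')⁻¹ = τ (s σ')⁻¹) h2) i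
      rw [inv_mul_cancel, map_one] at h4
      rw [map_mul, map_inv]
      exact h4.symm
    have h4 : x₁ * (σ'⁻¹ * σ) ∈ X := by
      refine hcongr (s x₁) (s (x₁ * (σ'⁻¹ * σ))) (fun i => ?_) hx₁
      rw [map_mul s, map_mul (ρ₀ i), h3 i, mul_one]
    have h5 : σ = σ' * (x₁⁻¹ * (x₁ * (σ'⁻¹ * σ))) := by group
    rw [h5]
    exact mul_mem hσ' (mul_mem (inv_mem (hXC hx₁)) (hXC h4))
  intro σ
  exact hCtop σ

theorem range_compact (s : Gal(AlgebraicClosure ℚ/ℚ) →* Γ) (hs : Continuous s) :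
    IsCompact (s.range : Set Γ) := by
  rw [MonoidHom.coe_range, ← Set.image_univ]
  exact isCompact_univ.image hs

/-- **One cover for all prime numbers.** -/
theorem main {T : Type} {s : T → Gal(AlgebraicClosure ℚ/ℚ) →* Γ} {w : ι → ℤ}
    {S : T → Set (HeightOneSpectrum (𝓞 ℚ))}
    {P : T → HeightOneSpectrum (𝓞 ℚ) → ι → Polynomial ℚ}
    {ρ : ∀ (ℓ : ℕ) [Fact ℓ.Prime], Reps Γ n ℓ} {𝔤 : Submodule ℚ (End ℚ (Betti n))}
    (h : ∀ t, Realizations (s t) w (S t) (P t) ρ 𝔤) (c : T → ℕ)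
    (hint : ∀ t, IntegralOutside (S t) (P t) (c t)) (r : ℕ) (hrank : RatRankLE 𝔤 r)
    (ℓ₀ : ℕ) [hℓ₀ : Fact ℓ₀.Prime] (hρ₀ : Conts (ρ ℓ₀)) (h₀ : FullElementsDense (ρ ℓ₀) r) :
    ∃ Δ : Subgroup Γ, Δ.Normal ∧ IsOpen (Δ : Set Γ) ∧ ∀ t, ConnectedFibre Δ (s t) →
      ∀ (ℓ : ℕ) [Fact ℓ.Prime], AtMember w (restrictTo (ρ ℓ) (s t)) 𝔤 r ∧
        (TateMotivated (restrictTo (ρ ℓ) (s t)) 𝔤 → TateMotivated (ρ ℓ) 𝔤) := by
  classical
  let b := Module.finBasis ℚ_[ℓ₀] (∀ i, Fin (n i) → ℚ_[ℓ₀])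
  let τ : Γ →* Matrix (Fin (finrank ℚ_[ℓ₀] (∀ i, Fin (n i) → ℚ_[ℓ₀])))
      (Fin (finrank ℚ_[ℓ₀] (∀ i, Fin (n i) → ℚ_[ℓ₀]))) ℚ_[ℓ₀] :=
    ((LinearMap.toMatrixAlgEquiv b : _ →* _)).comp (sumRep (ρ ℓ₀))
  have hτ : Continuous τ := matrix_cont hρ₀ b
  obtain ⟨Δ, hΔn, hΔo, hΔ⟩ := frattini hτ
  refine ⟨Δ, hΔn, hΔo, fun t ht ℓ _ => ?_⟩
  have hs := (h t).continuous_point
  have hcomp : IsCompact ((s t).range : Set Γ) := by
    exact range_compact (s t) hs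
  have him : ∀ γ, ∃ σ, ∀ i, ρ ℓ₀ i (s t σ) = ρ ℓ₀ i γ := by
    intro γ
    obtain ⟨d, ⟨σ, rfl⟩, h1⟩ := hΔ (s t).range hcomp (fun γ => by
        obtain ⟨σ, hσ⟩ := ht γ
        exact ⟨s t σ, ⟨σ, rfl⟩, hσ⟩) γ
    refine ⟨σ, fun i => LinearMap.ext fun x => ?_⟩
    have h2 : sumRep (ρ ℓ₀) (s t σ) = sumRep (ρ ℓ₀) γ :=
      (LinearMap.toMatrixAlgEquiv b).injective h1
    have h3 := congrFun (LinearMap.congr_fun h2 (Pi.single i x)) i
    have h4 : ∀ γ, sumRep (ρ ℓ₀) γ (Pi.single i x) i = ρ ℓ₀ i γ x := by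
      intro γ
      show ρ ℓ₀ i γ ((Pi.single i x : ∀ i, Fin (n i) → ℚ_[ℓ₀]) i) = _
      rw [Pi.single_eq_same]
    rw [h4, h4] at h3
    exact h3
  have hgen := generate_of hρ₀ h₀ hs him
  exact ⟨single (member (h t)) (c t) (hint t) r hrank ℓ₀ hgen ℓ, fun hT m φ =>
    ⟨fun hφ => (hT m φ).1 (tate_restrict (ρ ℓ) (s t) hφ), IsMotivic.tate ((h t).motivic ℓ) m φ⟩⟩

end family

end Pool.Agent.N203.FB
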